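import Pool.Agent.Lib.MP_9c5702_nt.GL.Wide

/-! A power saving for the number of representations as a sum of three positive cubes, for every
integer with a large cube divisor or a large cube-full divisor. -/

set_option autoImplicit false

namespace Pool.Agent.Results.MP_9c5702_nt.LargeCubeDivisor

open Pool.Agent.Lib.MP_9c5702_nt

theorem result : ∃ C : ℝ, ∀ n w : ℕ, 1 ≤ n → w ^ 3 ∣ n →
    n ^ 6 ≤ w ^ 15 * Nat.gcd n (w ^ 5) ^ 11 →
    (r33 n : ℝ) ≤ C * (n : ℝ) ^ ((1 : ℝ) / 3 - 1 / 10 ^ 8) :=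
  GL.wide3

end Pool.Agent.Results.MP_9c5702_nt.LargeCubeDivisor
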