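import Pool.Agent.Lib.MP_9c5702_nt.Save.Main

/-! Upper bound `n^(1/3) / (log n)^(1/15)` for the number of representations of `n` as a sum of
three positive cubes, for every `n`. -/

namespace Pool.Agent.Results.MP_9c5702_nt.LogSaving

open Pool.Agent.Lib.MP_9c5702_nt

theorem result : ∃ C : ℝ, ∀ n : ℕ, 2 ≤ n →
    (r33 n : ℝ) ≤ C * (n : ℝ) ^ ((1 : ℝ) / 3) / Real.log n ^ ((1 : ℝ) / 15) := by
  obtain ⟨C, hC⟩ := Save.main_U
  obtain ⟨N, hN⟩ := Filter.eventually_atTop.1 hC
  refine ⟨9 * |C| + N ^ 9, fun n hn => ?_⟩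
  have h0 : (2 : ℝ) ≤ n := by exact_mod_cast hn
  have hl : 0 < Real.log n := Real.log_pos (by linarith)
  set B : ℝ := (n : ℝ) ^ ((1 : ℝ) / 3) with hB
  have hB1 : 1 ≤ B := Real.one_le_rpow (by linarith) (by norm_num)
  have hB3 : B ^ 3 = n := by
    rw [hB, ← Real.rpow_natCast, ← Real.rpow_mul (by linarith)]
    norm_num
  set G := Real.log n ^ ((1 : ℝ) / 15) with hG
  have G0 : 0 < G := Real.rpow_pos_of_pos hl _
  have G1 : G ≤ B :=
    (Real.rpow_le_rpow hl.le ((Real.log_le_sub_one_of_pos (by linarith)).trans (by linarith))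
      (by norm_num)).trans (Real.rpow_le_rpow_of_exponent_le (by linarith) (by norm_num))
  set U := ⌊3 * B⌋₊ with hU
  have U1 : (U : ℝ) ≤ 3 * B := Nat.floor_le (by linarith)
  have U2 : B ≤ U := by linarith [Nat.lt_floor_add_one (3 * B)]
  have U3 : (n : ℝ) ≤ U ^ 3 := hB3 ▸ pow_le_pow_left₀ (by linarith) U2 3
  have U4 : n ≤ U ^ 3 := by exact_mod_cast U3
  have C0 := abs_nonneg C
  rw [le_div_iff₀ G0, add_mul]
  rcases le_total N U with h | h
  · have hx : ∀ x : ℕ, x ^ 3 ≤ n → (x : ℝ) ≤ B := fun x hx =>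
      le_of_pow_le_pow_left₀ three_ne_zero (by linarith) (by rw [hB3]; exact_mod_cast hx)
    have h1 := hN U h n (by omega) U4 fun x y z e => Nat.le_floor (by
      push_cast
      linarith [hx x (by omega), hx y (by omega), hx z (by omega)])
    have h2 := Real.log_le_log (by linarith) U3
    rw [Real.log_pow] at h2
    push_cast at h2
    have h3 : Real.exp (-(1 / 15 * Real.log (Real.log U))) * G ≤ 3 := by
      rw [hG, Real.rpow_def_of_pos hl, ← Real.exp_add, ← Real.exp_log three_pos]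
      refine Real.exp_le_exp.2 ?_
      have a1 := Real.log_le_log hl h2
      rw [Real.log_mul three_ne_zero (by linarith)] at a1
      linarith [Real.log_pos (show (1 : ℝ) < 3 by norm_num)]
    have h4 : (0 : ℝ) ≤ N ^ 9 * B := by positivity
    calc (r33 n : ℝ) * G ≤ |C| * U * Real.exp (-(1 / 15 * Real.log (Real.log U))) * G := by
          gcongr
          exact h1.trans (by gcongr; exact le_abs_self C)
      _ = |C| * U * (Real.exp (-(1 / 15 * Real.log (Real.log U))) * G) := by ring
      _ ≤ |C| * (3 * B) * 3 := by gcongr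
      _ ≤ _ := by linarith
  · have h1 : r33 n ≤ N ^ 9 := by
      refine (Finset.card_filter_le _ _).trans ?_
      simp only [Finset.card_product, Nat.card_Icc, Nat.add_sub_cancel]
      have := U4.trans (Nat.pow_le_pow_left h 3)
      calc n * (n * n) ≤ N ^ 3 * (N ^ 3 * N ^ 3) := by gcongr
        _ = _ := by ring
    have h2 : (r33 n : ℝ) ≤ N ^ 9 := by exact_mod_cast h1
    have h3 : 0 ≤ 9 * |C| * B := by positivity
    calc (r33 n : ℝ) * G ≤ N ^ 9 * B := by gcongr
      _ ≤ _ := by linarith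

end Pool.Agent.Results.MP_9c5702_nt.LogSaving
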