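import Pool.Agent.Lib.MP_9c5702_nt.TP.Main

/-! Representations of `n` as a sum of three positive cubes when `n` has a large square divisor. -/

set_option autoImplicit false

namespace Pool.Agent.Results.MP_9c5702_nt.SquareDivisorSaving

open Pool.Agent.Lib.MP_9c5702_nt

theorem result : ∀ ε : ℝ, 0 < ε → ∃ C : ℝ, ∀ (n q : ℕ) (b : ℕ → ℕ) (M : ℝ), 1 ≤ n → 1 ≤ q →
    (∀ p ∈ q.primeFactors, 2 * q.factorization p ≤ b p ∧ p ^ b p ∣ n) → 1 ≤ M →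
    (n : ℝ) ^ ((1 : ℝ) / 3) * ∏ p ∈ q.primeFactors,
        (p : ℝ) ^ (if b p ≤ 4 * q.factorization p then -((q.factorization p : ℝ) + (b p : ℝ) / 12)
          else (b p : ℝ) / 6 - √((q.factorization p : ℝ) * b p)) ≤ M →
    (r33 n : ℝ) ≤ C * (n : ℝ) ^ ε * q * M ^ (1 / √3) *
      max (M ^ (1 / √3)) (((n : ℝ) / (q : ℝ) ^ 3) ^ ((1 : ℝ) / 6)) :=
  fun ε hε => TP.main5 ε hε

end Pool.Agent.Results.MP_9c5702_nt.SquareDivisorSaving
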